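import Mathlib.RingTheory.MvPolynomial.MonomialOrder
import Mathlib.RingTheory.MvPolynomial.Ideal
import Mathlib.RingTheory.MvPolynomial.Homogeneous
import Mathlib.Algebra.Order.Antidiag.FinsuppEquiv
import Mathlib.Algebra.MvPolynomial.Funext
import Mathlib.Tactic

/-!
MP_48c274_ag: generic lex initial ideals which are not lexsegment.

Let `f₁, f₂` be generic quadrics in `n ≥ 4` variables and let the other forms have degree `≥ 5`.
The resultant of `f₁, f₂` with respect to `x₁` is a nonzero form of degree `4` of the ideal which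
does not involve `x₁`. If the initial ideal were lexsegment it would contain all `binom(n+2, 3)`
monomials of degree `4` divisible by `x₁` and one more; but the degree `4` part of the ideal has
dimension at most `n (n + 1) - 1`.
-/

set_option autoImplicit false

namespace Pool.Agent.Results.MP_48c274_ag.NotLexsegment

open MvPolynomial

/-- The coordinates of the affine space `𝔸^N` of coefficients of forms `f₁, …, f_s` of degrees
`d₁, …, d_s` in `n` variables: pairs of an index `i` and a monomial of degree `d i`. -/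
abbrev Coord (n : ℕ) {s : ℕ} (d : Fin s → ℕ) : Type :=
  (i : Fin s) × {m : Fin n →₀ ℕ // m ∈ Finset.finsuppAntidiag (Finset.univ : Finset (Fin n)) (d i)}

variable {k : Type} [Field k] {n s : ℕ}

/-- The form of degree `d i` whose coefficients are the corresponding coordinates of `a`. -/
noncomputable def form (d : Fin s → ℕ) (a : Coord n d → k) (i : Fin s) :
    MvPolynomial (Fin n) k :=
  ∑ m : {m : Fin n →₀ ℕ // m ∈ Finset.finsuppAntidiag (Finset.univ : Finset (Fin n)) (d i)},
    monomial m.1 (a ⟨i, m⟩)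

/-- The ideal `I_a = (f₁, …, f_s)`. -/
noncomputable def formIdeal (d : Fin s → ℕ) (a : Coord n d → k) : Ideal (MvPolynomial (Fin n) k) :=
  Ideal.span (Set.range (form d a))

/-- The initial ideal for the lexicographic order with `x₁ ≻ x₂ ≻ ⋯`: the ideal generated by the
leading monomials of the nonzero elements of `I`. -/
noncomputable def initialIdeal (I : Ideal (MvPolynomial (Fin n) k)) :
    Ideal (MvPolynomial (Fin n) k) :=
  Ideal.span {u | ∃ f ∈ I, f ≠ 0 ∧ u = monomial (MonomialOrder.lex.degree f) 1}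

/-- A monomial ideal `L` is lexsegment if for all monomials `u, v` of the same degree with
`u ∈ L` and `v ≻ u` also `v ∈ L`. -/
def IsLexsegment (L : Ideal (MvPolynomial (Fin n) k)) : Prop :=
  ∀ u v : Fin n →₀ ℕ, u.degree = v.degree →
    MonomialOrder.lex.toSyn u < MonomialOrder.lex.toSyn v →
      (monomial u 1 : MvPolynomial (Fin n) k) ∈ L → (monomial v 1 : MvPolynomial (Fin n) k) ∈ L

/-- `G` is the generic lex initial ideal: the initial ideal of `I_a` is `G` for all `a` in some
nonempty Zariski open set of `𝔸^N`. -/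
def IsGenericLexInitialIdeal (d : Fin s → ℕ) (G : Ideal (MvPolynomial (Fin n) k)) : Prop :=
  ∃ P : MvPolynomial (Coord n d) k, P ≠ 0 ∧
    ∀ a : Coord n d → k, eval a P ≠ 0 → initialIdeal (formIdeal d a) = G

/-! ### Linear algebra -/

lemma linInd {ι : Type} (g : ι → MvPolynomial (Fin n) k) (h0 : ∀ i, g i ≠ 0)
    (hinj : Function.Injective fun i => (MonomialOrder.lex.degree (g i) : Fin n →₀ ℕ)) :
    LinearIndependent k g := by
  classical
  rw [linearIndependent_iff']
  intro s c hc i hi
  by_contra hci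
  obtain ⟨i0, hi0, hmax⟩ := Finset.exists_max_image (s.filter (fun i => c i ≠ 0))
    (fun i => MonomialOrder.lex.toSyn (MonomialOrder.lex.degree (g i)))
    ⟨i, Finset.mem_filter.mpr ⟨hi, hci⟩⟩
  rw [Finset.mem_filter] at hi0
  have h1 := congrArg (coeff (MonomialOrder.lex.degree (g i0))) hc
  rw [coeff_sum, coeff_zero, Finset.sum_eq_single i0] at h1
  · rw [coeff_smul, smul_eq_mul, mul_eq_zero] at h1
    rcases h1 with h1 | h1
    · exact hi0.2 h1
    · exact h0 i0 ((MonomialOrder.coeff_degree_eq_zero_iff).mp h1)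
  · intro j hj hji
    rw [coeff_smul, smul_eq_mul]
    by_cases hcj : c j = 0
    · rw [hcj, zero_mul]
    · have h2 := hmax j (Finset.mem_filter.mpr ⟨hj, hcj⟩)
      have h3 : MonomialOrder.lex.toSyn (MonomialOrder.lex.degree (g j)) <
          MonomialOrder.lex.toSyn (MonomialOrder.lex.degree (g i0)) := by
        refine lt_of_le_of_ne h2 fun h => hji (hinj ?_)
        exact MonomialOrder.lex.toSyn.injective h
      rw [MonomialOrder.coeff_eq_zero_of_lt h3, mul_zero]
  · intro h
    exact absurd hi0.1 h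

attribute [local instance] MvPolynomial.gradedAlgebra in
lemma hc_mul_of_le (e N : ℕ) (h : e ≤ N) (c f : MvPolynomial (Fin n) k) (hf : f.IsHomogeneous e) :
    homogeneousComponent N (c * f) = homogeneousComponent (N - e) c * f := by
  have := DirectSum.coe_decompose_mul_of_right_mem_of_le (homogeneousSubmodule (Fin n) k)
    (a := c) (b := f) (i := e) (n := N) hf h
  rw [← decomposition.decompose'_apply, ← decomposition.decompose'_apply]
  exact this

attribute [local instance] MvPolynomial.gradedAlgebra in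
lemma hc_mul_of_not_le (e N : ℕ) (h : ¬ e ≤ N) (c f : MvPolynomial (Fin n) k)
    (hf : f.IsHomogeneous e) :
    homogeneousComponent N (c * f) = 0 := by
  have := DirectSum.coe_decompose_mul_of_right_mem_of_not_le (homogeneousSubmodule (Fin n) k)
    (a := c) (b := f) (i := e) (n := N) hf h
  rw [← decomposition.decompose'_apply]
  exact this

lemma mem_antidiag (d : ℕ) (m : Fin n →₀ ℕ) :
    m ∈ Finset.finsuppAntidiag (Finset.univ : Finset (Fin n)) d ↔ m.degree = d := by
  rw [Finset.mem_finsuppAntidiag, Finsupp.degree_eq_sum]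
  exact ⟨fun h => h.1, fun h => ⟨h, Finset.subset_univ _⟩⟩

lemma card_antidiag (d : ℕ) : Fintype.card
    {m : Fin n →₀ ℕ // m ∈ Finset.finsuppAntidiag (Finset.univ : Finset (Fin n)) d} =
      (n + d - 1).choose d := by
  rw [Fintype.card_coe, Finset.card_finsuppAntidiag_nat_eq_choose, Finset.card_univ,
    Fintype.card_fin]

lemma mono_mem_initialIdeal_iff (I : Ideal (MvPolynomial (Fin n) k)) (v : Fin n →₀ ℕ) :
    (monomial v 1 : MvPolynomial (Fin n) k) ∈ initialIdeal I ↔
      ∃ g ∈ I, g ≠ 0 ∧ MonomialOrder.lex.degree g = v := by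
  constructor
  · intro h
    have h1 : initialIdeal I = Ideal.span ((fun s : Fin n →₀ ℕ => (monomial s 1 :
        MvPolynomial (Fin n) k)) '' {u | ∃ f ∈ I, f ≠ 0 ∧ u = MonomialOrder.lex.degree f}) := by
      rw [initialIdeal]
      congr 1
      ext x
      constructor
      · rintro ⟨f, hf, hf0, rfl⟩
        exact ⟨_, ⟨f, hf, hf0, rfl⟩, rfl⟩
      · rintro ⟨_, ⟨f, hf, hf0, rfl⟩, rfl⟩
        exact ⟨f, hf, hf0, rfl⟩
    rw [h1, MvPolynomial.mem_ideal_span_monomial_image] at h
    obtain ⟨_, ⟨f, hf, hf0, rfl⟩, hle⟩ := h v (by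
      rw [mem_support_iff, coeff_monomial, if_pos rfl]
      exact one_ne_zero)
    have hm0 : (monomial (v - MonomialOrder.lex.degree f) 1 : MvPolynomial (Fin n) k) ≠ 0 := by
      rw [Ne, monomial_eq_zero]
      exact one_ne_zero
    refine ⟨monomial (v - MonomialOrder.lex.degree f) 1 * f, Ideal.mul_mem_left _ _ hf,
      mul_ne_zero hm0 hf0, ?_⟩
    rw [MonomialOrder.degree_mul hm0 hf0]
    classical
    rw [MonomialOrder.degree_monomial, if_neg one_ne_zero]
    exact tsub_add_cancel_of_le hle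
  · rintro ⟨g, hg, hg0, rfl⟩
    exact Ideal.subset_span ⟨g, hg, hg0, rfl⟩

/-- The homogeneous component keeps the leading monomial. -/
lemma degree_hc (g : MvPolynomial (Fin n) k) (hg : g ≠ 0) (N : ℕ)
    (h : (MonomialOrder.lex.degree g).degree = N) :
    homogeneousComponent N g ≠ 0 ∧
      MonomialOrder.lex.degree (homogeneousComponent N g) = MonomialOrder.lex.degree g := by
  have hc : coeff (MonomialOrder.lex.degree g) (homogeneousComponent N g) ≠ 0 := by
    rw [coeff_homogeneousComponent, if_pos h]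
    exact MonomialOrder.coeff_degree_ne_zero_iff.mpr hg
  have h0 : homogeneousComponent N g ≠ 0 := by
    intro h1
    rw [h1, coeff_zero] at hc
    exact hc rfl
  refine ⟨h0, ?_⟩
  apply MonomialOrder.lex.toSyn.injective
  apply le_antisymm
  · apply MonomialOrder.degree_le_degree_of_support_subset
    intro x hx
    rw [mem_support_iff, coeff_homogeneousComponent] at hx
    rw [mem_support_iff]
    intro h2
    rw [h2, ite_self] at hx
    exact hx rfl
  · exact MonomialOrder.le_degree (mem_support_iff.mpr hc)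

/-- The counting argument. -/
lemma core {m : ℕ} (I : Ideal (MvPolynomial (Fin (m + 1)) k))
    (V : Submodule k (MvPolynomial (Fin (m + 1)) k)) [FiniteDimensional k V]
    (hV : Module.finrank k V ≤ (m + 1 + 3 - 1).choose 3)
    (hI : ∀ g ∈ I, homogeneousComponent 4 g ∈ V)
    (r : MvPolynomial (Fin m) k) (hr : r.IsHomogeneous 4) (hr0 : r ≠ 0)
    (hrI : rename Fin.succ r ∈ I) : ¬ IsLexsegment (initialIdeal I) := by
  intro hL
  have hR0 : (rename Fin.succ r : MvPolynomial (Fin (m + 1)) k) ≠ 0 := by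
    rw [Ne, ← map_zero (rename (R := k) (Fin.succ (n := m)))]
    exact fun h => hr0 (rename_injective _ (Fin.succ_injective _) h)
  set u := MonomialOrder.lex.degree (rename Fin.succ r : MvPolynomial (Fin (m + 1)) k) with hu
  have hu1 : coeff u (rename Fin.succ r : MvPolynomial (Fin (m + 1)) k) ≠ 0 :=
    MonomialOrder.coeff_degree_ne_zero_iff.mpr hR0
  have hu2 : u.degree = 4 := by
    by_contra h
    exact hu1 ((hr.rename_isHomogeneous (f := Fin.succ)).coeff_eq_zero h)
  have hu3 : u 0 = 0 := by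
    obtain ⟨w, hw, -⟩ := coeff_rename_ne_zero _ _ _ hu1
    rw [← hw]
    rw [Finsupp.mapDomain_of_notMem_range]
    rintro ⟨i, hi⟩
    exact Fin.succ_ne_zero i hi
  have key : ∀ w : {w : Fin (m + 1) →₀ ℕ //
      w ∈ Finset.finsuppAntidiag (Finset.univ : Finset (Fin (m + 1))) 3},
      ∃ g ∈ V, g ≠ 0 ∧ MonomialOrder.lex.degree g = w.1 + Finsupp.single 0 1 := by
    intro w
    have hw := (mem_antidiag _ _).mp w.2
    have h4 : (w.1 + Finsupp.single 0 1).degree = 4 := by
      rw [map_add, hw, Finsupp.degree_single]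
    have hlt : MonomialOrder.lex.toSyn u < MonomialOrder.lex.toSyn (w.1 + Finsupp.single 0 1) := by
      rw [MonomialOrder.lex_lt_iff]
      refine ⟨0, fun j hj => absurd hj (Fin.not_lt_zero j), ?_⟩
      change u 0 < (w.1 + Finsupp.single 0 1 : Fin (m + 1) →₀ ℕ) 0
      rw [hu3]
      simp
    have h5 := hL u _ (hu2.trans h4.symm) hlt
      ((mono_mem_initialIdeal_iff _ _).mpr ⟨_, hrI, hR0, rfl⟩)
    obtain ⟨g, hg, hg0, hgd⟩ := (mono_mem_initialIdeal_iff _ _).mp h5
    obtain ⟨h6, h7⟩ := degree_hc g hg0 4 (by rw [hgd, h4])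
    exact ⟨_, hI g hg, h6, h7.trans hgd⟩
  choose g hgV hg0 hgd using key
  have hrV : (rename Fin.succ r : MvPolynomial (Fin (m + 1)) k) ∈ V := by
    have := hI _ hrI
    rwa [homogeneousComponent_eq_self (hr.rename_isHomogeneous (f := Fin.succ))] at this
  let G : Option {w : Fin (m + 1) →₀ ℕ //
      w ∈ Finset.finsuppAntidiag (Finset.univ : Finset (Fin (m + 1))) 3} →
      MvPolynomial (Fin (m + 1)) k := fun o => o.elim (rename Fin.succ r) g
  have hG : LinearIndependent k G := by
    refine linInd G ?_ ?_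
    · rintro (_ | w)
      · exact hR0
      · exact hg0 w
    · rintro (_ | w) (_ | w') h
      · rfl
      · exfalso
        have h' : u = MonomialOrder.lex.degree (g w') := h
        rw [hgd] at h'
        have := DFunLike.congr_fun h' 0
        rw [hu3] at this
        simp at this
      · exfalso
        have h' : MonomialOrder.lex.degree (g w) = u := h
        rw [hgd] at h'
        have := DFunLike.congr_fun h' 0
        rw [hu3] at this
        simp at this
      · have h' : MonomialOrder.lex.degree (g w) = MonomialOrder.lex.degree (g w') := h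
        rw [hgd, hgd] at h'
        rw [Subtype.ext (add_right_cancel h')]
  have hGV : ∀ o, G o ∈ V := by
    rintro (_ | w)
    · exact hrV
    · exact hgV w
  have hG' : LinearIndependent k (fun o => (⟨G o, hGV o⟩ : V)) := by
    apply LinearIndependent.of_comp V.subtype
    exact hG
  have h8 := hG'.fintype_card_le_finrank
  rw [Fintype.card_option, card_antidiag] at h8
  omega

/-- The bound for the dimension of the degree `4` part of the ideal. -/
lemma rank_bound (f₁ f₂ : MvPolynomial (Fin n) k) (h1 : f₁.IsHomogeneous 2)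
    (h2 : f₂.IsHomogeneous 2) (h0 : f₁ ≠ 0) :
    ∃ V : Submodule k (MvPolynomial (Fin n) k), FiniteDimensional k V ∧
      Module.finrank k V + 1 ≤ 2 * (n + 2 - 1).choose 2 ∧
      ∀ a b, a.IsHomogeneous 2 → b.IsHomogeneous 2 → a * f₁ + b * f₂ ∈ V := by
  classical
  let H := homogeneousSubmodule (Fin n) k 2
  let co : H →ₗ[k] ({m : Fin n →₀ ℕ //
      m ∈ Finset.finsuppAntidiag (Finset.univ : Finset (Fin n)) 2} → k) :=
    { toFun := fun u m => coeff m.1 u.1
      map_add' := fun u v => by
        funext m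
        exact coeff_add _ _ _
      map_smul' := fun c u => by
        funext m
        exact coeff_smul _ _ _ }
  have hco : Function.Injective co := by
    intro u v huv
    apply Subtype.ext
    ext m
    by_cases hm : m.degree = 2
    · exact congrFun huv ⟨m, (mem_antidiag _ _).mpr hm⟩
    · rw [IsHomogeneous.coeff_eq_zero u.2 hm, IsHomogeneous.coeff_eq_zero v.2 hm]
  have : FiniteDimensional k H := Module.Finite.of_injective co hco
  have hH : Module.finrank k H ≤ (n + 2 - 1).choose 2 := by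
    have := LinearMap.finrank_le_finrank_of_injective hco
    rwa [Module.finrank_fintype_fun_eq_card, card_antidiag] at this
  let Φ : (H × H) →ₗ[k] MvPolynomial (Fin n) k :=
    { toFun := fun u => u.1.1 * f₁ + u.2.1 * f₂
      map_add' := fun u v => by
        change (u.1.1 + v.1.1) * f₁ + (u.2.1 + v.2.1) * f₂ = _
        ring
      map_smul' := fun c u => by
        change (c • u.1.1) * f₁ + (c • u.2.1) * f₂ = c • (u.1.1 * f₁ + u.2.1 * f₂)
        rw [smul_mul_assoc, smul_mul_assoc, smul_add] }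
  refine ⟨LinearMap.range Φ, inferInstance, ?_, ?_⟩
  · have h3 := LinearMap.finrank_range_add_finrank_ker Φ
    have hmem : ((⟨-f₂, h2.neg⟩, ⟨f₁, h1⟩) : H × H) ∈ LinearMap.ker Φ := by
      change -f₂ * f₁ + f₁ * f₂ = 0
      ring
    have h4 : 0 < Module.finrank k (LinearMap.ker Φ) := by
      refine (Module.finrank_pos_iff_exists_ne_zero (R := k) (M := LinearMap.ker Φ)).mpr
        ⟨⟨_, hmem⟩, fun h => h0 ?_⟩
      exact congrArg (fun x : LinearMap.ker Φ => (x.1.2.1 : MvPolynomial (Fin n) k)) h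
    rw [Module.finrank_prod] at h3
    omega
  · intro a b ha hb
    exact ⟨(⟨a, ha⟩, ⟨b, hb⟩), rfl⟩

/-! ### The resultant -/

lemma eval_single {m : ℕ} (q : MvPolynomial (Fin (m + 1)) k) (j : ℕ) (hq : q.IsHomogeneous j) :
    eval (Pi.single 0 1 : Fin (m + 1) → k) q = coeff (Finsupp.single 0 j) q := by
  classical
  rw [eval_eq']
  have h1 : ∀ x : Fin (m + 1) →₀ ℕ, x.degree = j → x ≠ Finsupp.single 0 j →
      ∏ i, (Pi.single 0 1 : Fin (m + 1) → k) i ^ x i = 0 := by
    intro x hx hne
    have : ∃ i, i ≠ 0 ∧ x i ≠ 0 := by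
      by_contra hcon
      push Not at hcon
      apply hne
      have hx2 : x = Finsupp.single 0 (x 0) := by
        ext i
        by_cases hi : i = 0
        · rw [hi, Finsupp.single_eq_same]
        · rw [hcon i hi, Finsupp.single_eq_of_ne hi]
      rw [hx2, Finsupp.degree_single] at hx
      rw [hx2, hx]
    obtain ⟨i, hi, hxi⟩ := this
    refine Finset.prod_eq_zero (Finset.mem_univ i) ?_
    rw [Pi.single_eq_of_ne hi, zero_pow hxi]
  rw [Finset.sum_eq_single (Finsupp.single 0 j)]
  · have : ∏ i, (Pi.single 0 1 : Fin (m + 1) → k) i ^ (Finsupp.single 0 j : Fin (m + 1) →₀ ℕ) i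
        = 1 := by
      refine Finset.prod_eq_one fun i _ => ?_
      by_cases hi : i = 0
      · rw [hi, Pi.single_eq_same, one_pow]
      · rw [Finsupp.single_eq_of_ne hi, pow_zero]
    rw [this, mul_one]
  · intro x hx hne
    have hx' : x.degree = j := by
      by_contra h
      exact (mem_support_iff.mp hx) (hq.coeff_eq_zero h)
    rw [h1 x hx' hne, mul_zero]
  · intro hx
    rw [notMem_support_iff.mp hx, zero_mul]

lemma finSucc_rename {m : ℕ} (r : MvPolynomial (Fin m) k) :
    finSuccEquiv k m (rename Fin.succ r) = Polynomial.C r := by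
  induction r using MvPolynomial.induction_on with
  | C a => simp [finSuccEquiv_apply]
  | add p q hp hq => rw [map_add, map_add, hp, hq, map_add]
  | mul_X p i hp => rw [map_mul, map_mul, hp, rename_X, finSuccEquiv_X_succ, map_mul]

/-- the element of degree `4` not involving the first variable -/
lemma resultant {m : ℕ} (f₁ f₂ : MvPolynomial (Fin (m + 2)) k) (h1 : f₁.IsHomogeneous 2)
    (h2 : f₂.IsHomogeneous 2) :
    ∃ r : MvPolynomial (Fin (m + 1)) k, r.IsHomogeneous 4 ∧
      (∃ a b, rename Fin.succ r = a * f₁ + b * f₂) ∧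
      ∀ A B D A' B' D' : k,
        coeff ((Finsupp.single 0 0).cons 2) f₁ = A → coeff ((Finsupp.single 0 1).cons 1) f₁ = B →
        coeff ((Finsupp.single 0 2).cons 0) f₁ = D →
        coeff ((Finsupp.single 0 0).cons 2) f₂ = A' → coeff ((Finsupp.single 0 1).cons 1) f₂ = B' →
        coeff ((Finsupp.single 0 2).cons 0) f₂ = D' →
        eval (Pi.single 0 1 : Fin (m + 1) → k) r =
          (A' * D - A * D') ^ 2 - (A' * B - A * B') * (D * B' - D' * B) := by
  set p := finSuccEquiv k (m + 1) f₁ with hp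
  set q := finSuccEquiv k (m + 1) f₂ with hq
  have pa : ∀ j i, j + i = 2 → (p.coeff i).IsHomogeneous j := fun j i h =>
    h1.finSuccEquiv_coeff_isHomogeneous i j (by omega)
  have qa : ∀ j i, j + i = 2 → (q.coeff i).IsHomogeneous j := fun j i h =>
    h2.finSuccEquiv_coeff_isHomogeneous i j (by omega)
  have deg : ∀ f : MvPolynomial (Fin (m + 2)) k, f.IsHomogeneous 2 →
      finSuccEquiv k (m + 1) f = Polynomial.C ((finSuccEquiv k (m + 1) f).coeff 0) +
        Polynomial.C ((finSuccEquiv k (m + 1) f).coeff 1) * Polynomial.X +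
        Polynomial.C ((finSuccEquiv k (m + 1) f).coeff 2) * Polynomial.X ^ 2 := by
    intro f hf
    have : (finSuccEquiv k (m + 1) f).natDegree < 3 := by
      rw [natDegree_finSuccEquiv]
      have := degreeOf_le_totalDegree f 0
      have := hf.totalDegree_le
      omega
    conv_lhs => rw [Polynomial.as_sum_range_C_mul_X_pow' _ this]
    simp [Finset.sum_range_succ]
  have hp' := deg f₁ h1
  have hq' := deg f₂ h2
  rw [← hp] at hp'
  rw [← hq] at hq'
  set A := p.coeff 2
  set B := p.coeff 1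
  set D := p.coeff 0
  set A' := q.coeff 2
  set B' := q.coeff 1
  set D' := q.coeff 0
  have hA := pa 0 2 rfl
  have hB := pa 1 1 rfl
  have hD := pa 2 0 rfl
  have hA' := qa 0 2 rfl
  have hB' := qa 1 1 rfl
  have hD' := qa 2 0 rfl
  refine ⟨(A' * D - A * D') ^ 2 - (A' * B - A * B') * (D * B' - D' * B), ?_, ?_, ?_⟩
  · have e1 : (A' * D - A * D').IsHomogeneous 2 := (hA'.mul hD).sub (hA.mul hD')
    have e2 : (A' * B - A * B').IsHomogeneous 1 := (hA'.mul hB).sub (hA.mul hB')
    have e3 : (D * B' - D' * B).IsHomogeneous 3 := (hD.mul hB').sub (hD'.mul hB)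
    exact (e1.pow 2).sub (e2.mul e3)
  · have key : Polynomial.C ((A' * D - A * D') ^ 2 - (A' * B - A * B') * (D * B' - D' * B)) =
        (Polynomial.C (A' * D - A * D') * Polynomial.C A' -
          Polynomial.C (A' * B - A * B') * (Polynomial.X * Polynomial.C A' + Polynomial.C B')) * p
        + (- Polynomial.C (A' * D - A * D') * Polynomial.C A +
          Polynomial.C (A' * B - A * B') * (Polynomial.X * Polynomial.C A + Polynomial.C B)) * q
        := by
      rw [hp', hq']
      simp only [map_sub, map_mul, map_pow]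
      ring
    refine ⟨(finSuccEquiv k (m + 1)).symm (Polynomial.C (A' * D - A * D') * Polynomial.C A' -
          Polynomial.C (A' * B - A * B') * (Polynomial.X * Polynomial.C A' + Polynomial.C B')),
      (finSuccEquiv k (m + 1)).symm (- Polynomial.C (A' * D - A * D') * Polynomial.C A +
          Polynomial.C (A' * B - A * B') * (Polynomial.X * Polynomial.C A + Polynomial.C B)), ?_⟩
    apply (finSuccEquiv k (m + 1)).injective
    rw [map_add, map_mul, map_mul, AlgEquiv.apply_symm_apply, AlgEquiv.apply_symm_apply, ← hp,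
      ← hq, ← key, finSucc_rename]
  · rintro _ _ _ _ _ _ rfl rfl rfl rfl rfl rfl
    simp only [map_sub, map_mul, map_pow]
    rw [eval_single A 0 hA, eval_single B 1 hB, eval_single D 2 hD, eval_single A' 0 hA',
      eval_single B' 1 hB', eval_single D' 2 hD']
    simp only [A, B, D, A', B', D', hp, hq, finSuccEquiv_coeff_coeff]

/-! ### The theorem -/

lemma form_isHomogeneous (d : Fin s → ℕ) (a : Coord n d → k) (i : Fin s) :
    (form d a i).IsHomogeneous (d i) := by
  refine IsHomogeneous.sum _ _ _ fun m _ => ?_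
  exact isHomogeneous_monomial _ ((mem_antidiag _ _).mp m.2)

lemma coeff_form (d : Fin s → ℕ) (a : Coord n d → k) (i : Fin s) (m : Fin n →₀ ℕ)
    (hm : m ∈ Finset.finsuppAntidiag (Finset.univ : Finset (Fin n)) (d i)) :
    coeff m (form d a i) = a ⟨i, ⟨m, hm⟩⟩ := by
  classical
  rw [form, coeff_sum, Finset.sum_eq_single ⟨m, hm⟩]
  · rw [coeff_monomial, if_pos rfl]
  · intro b _ hb
    rw [coeff_monomial, if_neg (fun h => hb (Subtype.ext h))]
  · intro h
    exact absurd (Finset.mem_univ _) h

lemma choose_bound (m : ℕ) : 2 * (m + 4 + 2 - 1).choose 2 ≤ (m + 3 + 1 + 3 - 1).choose 3 := by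
  have h := Nat.add_one_mul_choose_eq (m + 5) 2
  have e1 : m + 4 + 2 - 1 = m + 5 := by omega
  have e2 : m + 3 + 1 + 3 - 1 = (m + 5).succ := by omega
  rw [e1, e2]
  have h3 : (m + 5).succ.choose (Nat.succ 2) * Nat.succ 2 = (m + 5).succ.choose 3 * 3 := rfl
  rw [h3] at h
  nlinarith [Nat.zero_le (m * (m + 5).choose 2)]

/-- the six coordinates of the first two forms used in the resultant -/
lemma mem_six {s : ℕ} {m : ℕ} (d : Fin s → ℕ) (i : Fin s) (hi : d i = 2) (j l : ℕ)
    (h : l + j = 2) :
    (Finsupp.single 0 l : Fin (m + 3) →₀ ℕ).cons j ∈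
      Finset.finsuppAntidiag (Finset.univ : Finset (Fin (m + 4))) (d i) := by
  rw [mem_antidiag, hi, Finsupp.degree_eq_sum, Fin.sum_univ_succ]
  simp only [Finsupp.cons_zero, Finsupp.cons_succ]
  rw [← Finsupp.degree_eq_sum, Finsupp.degree_single]
  omega

/-- On a nonempty Zariski open set the initial ideal is not lexsegment. -/
lemma exists_open (m s : ℕ) (d : Fin (s + 2) → ℕ) (h0 : d 0 = 2) (h1 : d 1 = 2)
    (hd : ∀ i, i ≠ 0 → i ≠ 1 → 4 ≤ d i)
    (hcard : (Finset.univ.filter (fun i => d i = 4)).card ≤ 1) :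
    ∃ P : MvPolynomial (Coord (m + 4) d) k, P ≠ 0 ∧
      ∀ a : Coord (m + 4) d → k, eval a P ≠ 0 → ¬ IsLexsegment (initialIdeal (formIdeal d a)) := by
  classical
  let x (i : Fin (s + 2)) (hi : d i = 2) (j l : ℕ) (h : l + j = 2) :
      MvPolynomial (Coord (m + 4) d) k := X ⟨i, ⟨_, mem_six d i hi j l h⟩⟩
  let P : MvPolynomial (Coord (m + 4) d) k :=
    (x 1 h1 2 0 rfl * x 0 h0 0 2 rfl - x 0 h0 2 0 rfl * x 1 h1 0 2 rfl) ^ 2 -
    (x 1 h1 2 0 rfl * x 0 h0 1 1 rfl - x 0 h0 2 0 rfl * x 1 h1 1 1 rfl) *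
    (x 0 h0 0 2 rfl * x 1 h1 1 1 rfl - x 1 h1 0 2 rfl * x 0 h0 1 1 rfl)
  have hP : ∀ a : Coord (m + 4) d → k, eval a P =
      (a ⟨1, ⟨_, mem_six d 1 h1 2 0 rfl⟩⟩ * a ⟨0, ⟨_, mem_six d 0 h0 0 2 rfl⟩⟩ -
        a ⟨0, ⟨_, mem_six d 0 h0 2 0 rfl⟩⟩ * a ⟨1, ⟨_, mem_six d 1 h1 0 2 rfl⟩⟩) ^ 2 -
      (a ⟨1, ⟨_, mem_six d 1 h1 2 0 rfl⟩⟩ * a ⟨0, ⟨_, mem_six d 0 h0 1 1 rfl⟩⟩ -
        a ⟨0, ⟨_, mem_six d 0 h0 2 0 rfl⟩⟩ * a ⟨1, ⟨_, mem_six d 1 h1 1 1 rfl⟩⟩) *
      (a ⟨0, ⟨_, mem_six d 0 h0 0 2 rfl⟩⟩ * a ⟨1, ⟨_, mem_six d 1 h1 1 1 rfl⟩⟩ -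
        a ⟨1, ⟨_, mem_six d 1 h1 0 2 rfl⟩⟩ * a ⟨0, ⟨_, mem_six d 0 h0 1 1 rfl⟩⟩) := by
    intro a
    simp only [P, x, map_sub, map_mul, map_pow, eval_X]
  refine ⟨P, ?_, ?_⟩
  · intro hP0
    have h2 := hP (fun c => if c.1 = 0 then (if c.2.1 0 = 2 then 1 else 0) else
      (if c.2.1 0 = 0 then 1 else 0))
    rw [hP0, map_zero] at h2
    simp at h2
  · intro a ha
    rw [hP] at ha
    have hf0 := form_isHomogeneous d a 0
    have hf1 := form_isHomogeneous d a 1
    rw [h0] at hf0
    rw [h1] at hf1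
    obtain ⟨r, hr, ⟨b, c, hbc⟩, hev⟩ := resultant (form d a 0) (form d a 1) hf0 hf1
    have hev' := hev _ _ _ _ _ _ (coeff_form d a 0 _ (mem_six d 0 h0 2 0 rfl))
      (coeff_form d a 0 _ (mem_six d 0 h0 1 1 rfl)) (coeff_form d a 0 _ (mem_six d 0 h0 0 2 rfl))
      (coeff_form d a 1 _ (mem_six d 1 h1 2 0 rfl)) (coeff_form d a 1 _ (mem_six d 1 h1 1 1 rfl))
      (coeff_form d a 1 _ (mem_six d 1 h1 0 2 rfl))
    have hr0 : r ≠ 0 := by
      rintro rfl
      rw [map_zero] at hev'
      exact ha hev'.symm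
    have hne : form d a 0 ≠ 0 := by
      intro h
      apply ha
      rw [← coeff_form d a 0 _ (mem_six d 0 h0 2 0 rfl),
        ← coeff_form d a 0 _ (mem_six d 0 h0 1 1 rfl),
        ← coeff_form d a 0 _ (mem_six d 0 h0 0 2 rfl), h]
      simp
    obtain ⟨V, hVf, hV, hVm⟩ := rank_bound (form d a 0) (form d a 1) hf0 hf1 hne
    let W : Submodule k (MvPolynomial (Fin (m + 4)) k) :=
      Submodule.span k ((Finset.univ.filter (fun i => d i = 4)).image (form d a) :
        Finset (MvPolynomial (Fin (m + 4)) k))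
    have hW : Module.finrank k W ≤ 1 :=
      (finrank_span_finset_le_card _).trans (Finset.card_image_le.trans hcard)
    have hfin : FiniteDimensional k (V ⊔ W : Submodule k _) := inferInstance
    refine core (m := m + 3) (formIdeal d a) (V ⊔ W) ?_ ?_ r hr hr0 ?_
    · have h4 := choose_bound m
      refine (Submodule.finrank_add_le_finrank_add_finrank V W).trans ?_
      omega
    · intro g hg
      rw [formIdeal, Ideal.mem_span_range_iff_exists_fun] at hg
      obtain ⟨u, rfl⟩ := hg
      rw [map_sum, Fin.sum_univ_succ, Fin.sum_univ_succ, ← add_assoc]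
      refine Submodule.add_mem _ (Submodule.mem_sup_left ?_) (Submodule.mem_sup_right ?_)
      · have e0 := hc_mul_of_le 2 4 (by norm_num) (u 0) _ hf0
        have e1 := hc_mul_of_le 2 4 (by norm_num) (u 1) _ hf1
        change homogeneousComponent 4 (u 0 * form d a 0) +
          homogeneousComponent 4 (u 1 * form d a 1) ∈ V
        rw [e0, e1]
        exact hVm _ _ (homogeneousComponent_isHomogeneous _ _)
          (homogeneousComponent_isHomogeneous _ _)
      · refine Submodule.sum_mem _ fun i _ => ?_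
        have hi : 4 ≤ d i.succ.succ := hd _ (Fin.succ_ne_zero _) (by
          intro h
          have : i.succ = 0 := Fin.succ_injective _ h
          exact Fin.succ_ne_zero _ this)
        have hfi := form_isHomogeneous d a i.succ.succ
        rcases hi.lt_or_eq with h | h
        · rw [hc_mul_of_not_le _ 4 (by omega) _ _ hfi]
          exact Submodule.zero_mem _
        · rw [← h] at hfi
          rw [hc_mul_of_le 4 4 le_rfl _ _ hfi, Nat.sub_self, homogeneousComponent_zero,
            ← smul_eq_C_mul]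
          refine Submodule.smul_mem _ _ (Submodule.subset_span ?_)
          rw [Finset.coe_image]
          exact ⟨_, by simp [← h], rfl⟩
    · rw [hbc]
      exact Ideal.add_mem _ (Ideal.mul_mem_left _ _ (Ideal.subset_span ⟨0, rfl⟩))
        (Ideal.mul_mem_left _ _ (Ideal.subset_span ⟨1, rfl⟩))

/-- For every infinite field `k`, all `n ≥ 4` and `s ≥ 2` and all degrees `d` with
`d₁ = d₂ = 2`, `dᵢ ≥ 4` for `i ≥ 3` and at most one `dᵢ = 4`: the initial ideal of `I_a` is not
lexsegment for all `a` in a nonempty Zariski open set, and the generic lex initial ideal is not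
lexsegment. (For `s ≥ n - 1` these are negative answers to Q1; for instance `n = 4`, `s = 3`,
degrees `2, 2, 4`.) -/
theorem result (k : Type) [Field k] [Infinite k] (n s : ℕ) (hn : 4 ≤ n) (hs : 2 ≤ s)
    (d : Fin s → ℕ) (hd2 : ∀ i : Fin s, (i : ℕ) < 2 → d i = 2)
    (hd : ∀ i : Fin s, 2 ≤ (i : ℕ) → 4 ≤ d i)
    (hcard : (Finset.univ.filter (fun i => d i = 4)).card ≤ 1) :
    (∃ P : MvPolynomial (Coord n d) k, P ≠ 0 ∧
      ∀ a : Coord n d → k, eval a P ≠ 0 → ¬ IsLexsegment (initialIdeal (formIdeal d a))) ∧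
    ∀ G : Ideal (MvPolynomial (Fin n) k), IsGenericLexInitialIdeal d G → ¬ IsLexsegment G := by
  have hopen : ∃ P : MvPolynomial (Coord n d) k, P ≠ 0 ∧
      ∀ a : Coord n d → k, eval a P ≠ 0 →
        ¬ IsLexsegment (initialIdeal (formIdeal d a)) := by
    obtain ⟨m, rfl⟩ : ∃ m, n = m + 4 := ⟨n - 4, by omega⟩
    obtain ⟨s', rfl⟩ : ∃ s', s = s' + 2 := ⟨s - 2, by omega⟩
    refine exists_open m s' d (hd2 0 (by simp)) (hd2 1 (by simp)) (fun i hi0 hi1 => hd i ?_) hcard
    by_contra h
    rw [not_le] at h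
    have h0 : (i : ℕ) ≠ 0 := fun h' => hi0 (Fin.ext h')
    have h1 : (i : ℕ) ≠ 1 := fun h' => hi1 (Fin.ext h')
    omega
  refine ⟨hopen, ?_⟩
  rintro G ⟨Q, hQ0, hQ⟩
  obtain ⟨P, hP0, hP⟩ := hopen
  have h : ∃ a, eval a (P * Q) ≠ 0 := by
    by_contra hcon
    push Not at hcon
    apply mul_ne_zero hP0 hQ0
    apply MvPolynomial.funext
    intro a
    rw [hcon a, map_zero]
  obtain ⟨a, ha⟩ := h
  rw [map_mul] at ha
  rw [← hQ a (right_ne_zero_of_mul ha)]
  exact hP a (left_ne_zero_of_mul ha)

end Pool.Agent.Results.MP_48c274_ag.NotLexsegment
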